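import Pool.Agent.H47.UG.Ch

/-!
# The minors of the matrix `[x | δ x]`: row DET of the UG project (MP_b509a1_ag)
-/

set_option autoImplicit false

open MvPolynomial

namespace Pool.Agent.H85.UG

open Pool.Agent.H47.UG

/-- If the combination of the rows with coefficients `f` is zero, the minors are proportional to the coefficients. -/
theorem minor_rel {R : Type} [CommRing R] {m : ℕ} (M : Matrix (Fin (m + 1)) (Fin m) R) (f : Fin (m + 1) → R)
    (h : ∀ c, ∑ j, f j * M j c = 0) (a b : Fin (m + 1)) :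
    f a * ((-1) ^ (b : ℕ) * (M.submatrix b.succAbove id).det) =
      f b * ((-1) ^ (a : ℕ) * (M.submatrix a.succAbove id).det) := by
  classical
  set N : Matrix (Fin (m + 1)) (Fin (m + 1)) R :=
    Matrix.of fun i j => Fin.cases (if i = b then 1 else 0) (fun c => M i c) j with hN
  have hsub : ∀ i : Fin (m + 1), N.submatrix i.succAbove Fin.succ = M.submatrix i.succAbove id := by
    intro i
    ext p q
    simp [hN]
  have h1 : N.det = (-1) ^ (b : ℕ) * (M.submatrix b.succAbove id).det := by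
    rw [Matrix.det_succ_column_zero, Finset.sum_eq_single b]
    · rw [hsub]
      simp [hN]
    · intro i _ hi
      simp [hN, hi]
    · intro hb
      exact absurd (Finset.mem_univ b) hb
  have h2 : (N.updateRow a (∑ k, f k • N k)).det = f a * N.det := by
    rw [Matrix.det_updateRow_sum, smul_eq_mul]
  have hrow0 : (∑ k, f k • N k) 0 = f b := by
    simp [hN, Finset.sum_apply]
  have hrows : ∀ c : Fin m, (∑ k, f k • N k) c.succ = 0 := by
    intro c
    rw [Finset.sum_apply]
    simpa [hN] using h c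
  have h3 : (N.updateRow a (∑ k, f k • N k)).det = (-1) ^ (a : ℕ) * f b * (M.submatrix a.succAbove id).det := by
    rw [Matrix.det_succ_row _ a, Finset.sum_eq_single 0]
    · have e1 : (N.updateRow a (∑ k, f k • N k)).submatrix a.succAbove (0 : Fin (m + 1)).succAbove =
          M.submatrix a.succAbove id := by
        ext p q
        rw [Matrix.submatrix_apply, Matrix.updateRow_ne (Fin.succAbove_ne a p), Fin.zero_succAbove]
        simp [hN]
      rw [e1, Matrix.updateRow_self, hrow0]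
      simp
    · intro j _ hj
      obtain ⟨c, rfl⟩ := Fin.exists_succ_eq.2 hj
      rw [Matrix.updateRow_self, hrows c]
      simp
    · intro h0
      exact absurd (Finset.mem_univ _) h0
  rw [← h1, ← h2, h3]
  ring

namespace FFDet

variable {K : Type} [Field K] {n d : ℕ} {F : HP K n} (T : FF d F)

theorem δ_mul (s : ℕ) (u v : T.L) : T.δ s (u * v) = C u * T.δ s v + C v * T.δ s u := by
  unfold FF.δ
  rw [Finset.mul_sum, Finset.mul_sum, ← Finset.sum_add_distrib]
  refine Finset.sum_congr rfl fun l _ => ?_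
  rw [Derivation.leibniz]
  simp only [smul_eq_mul, map_add, map_mul]
  ring

/-- The matrix with the rows `(x_a, δ_{c_r} x_a)`. -/
noncomputable def MM {k : ℕ} (c : Fin n → Fin k) : Matrix (Fin (n + 2)) (Fin (n + 1)) T.BB :=
  Matrix.of fun a q => Fin.cases (C (T.x a)) (fun r => T.δ (c r) (T.x a)) q

theorem MM_rel (he : ∑ j, T.x j * T.fd j = 0) (hc : ∀ l : Fin n, ∑ j, T.fd j * T.par l (T.x j) = 0)
    {k : ℕ} (c : Fin n → Fin k) (q : Fin (n + 1)) : ∑ j, C (T.fd j) * MM T c j q = 0 := by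
  refine Fin.cases ?_ (fun r => ?_) q
  · simp only [MM, Matrix.of_apply, Fin.cases_zero]
    rw [← map_zero C, ← he, map_sum]
    refine Finset.sum_congr rfl fun j _ => ?_
    rw [map_mul, mul_comm]
  · simp only [MM, Matrix.of_apply, Fin.cases_succ]
    have h1 : ∀ j, C (T.fd j) * T.δ (c r) (T.x j) =
        ∑ l, C (T.fd j * T.par l (T.x j)) * (X ((c r : ℕ), l) : T.BB) := by
      intro j
      unfold FF.δ
      rw [Finset.mul_sum]
      refine Finset.sum_congr rfl fun l _ => ?_
      rw [map_mul, mul_assoc]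
    rw [Finset.sum_congr rfl fun j _ => h1 j, Finset.sum_comm]
    refine Finset.sum_eq_zero fun l _ => ?_
    rw [← Finset.sum_mul, ← map_sum, hc l, map_zero, zero_mul]

/-- The minor without the row `b = i.succAbove j` in terms of the coordinates of the chart `(i,j)`. -/
theorem MM_minor {k : ℕ} (c : Fin n → Fin k) (i : Fin (n + 2)) (j : Fin (n + 1)) :
    ((MM T c).submatrix (i.succAbove j).succAbove id).det =
      (-1) ^ ((j.predAbove i : Fin (n + 1)) : ℕ) * (C (T.x i) ^ (n + 1) *
        Matrix.det (Matrix.of fun l r : Fin n => T.δ (c r) (T.y i j l))) := by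
  classical
  set i' : Fin (n + 1) := j.predAbove i with hi'
  have hi : (i.succAbove j).succAbove i' = i := Fin.succAbove_succAbove_predAbove i j
  have ha : ∀ l : Fin n, (i.succAbove j).succAbove (i'.succAbove l) = i.succAbove (j.succAbove l) :=
    fun l => Fin.succAbove_succAbove_succAbove_predAbove i j l
  have hxi : T.x i ≠ 0 := T.x_ne i
  -- the matrix after the row operations
  set P : Matrix (Fin (n + 1)) (Fin (n + 1)) T.BB := Matrix.of fun p q =>
    if p = i' then MM T c i q else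
      MM T c ((i.succAbove j).succAbove p) q -
        C (T.x ((i.succAbove j).succAbove p) / T.x i) * MM T c i q with hP
  have hdet : ((MM T c).submatrix (i.succAbove j).succAbove id).det = P.det := by
    refine Matrix.det_eq_of_forall_row_eq_smul_add_const
      (fun p => if p = i' then 0 else C (T.x ((i.succAbove j).succAbove p) / T.x i)) i' (by simp) ?_
    intro p q
    by_cases hp : p = i'
    · subst hp
      simp [hP, hi]
    · simp [hP, hp]
  have hP0 : ∀ l : Fin n, P (i'.succAbove l) 0 = 0 := by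
    intro l
    simp only [hP, Matrix.of_apply, if_neg (Fin.succAbove_ne i' l), MM, Fin.cases_zero]
    rw [← map_mul, div_mul_cancel₀ _ hxi, sub_self]
  have hPs : ∀ (l r : Fin n), P (i'.succAbove l) r.succ = C (T.x i) * T.δ (c r) (T.y i j l) := by
    intro l r
    simp only [hP, Matrix.of_apply, if_neg (Fin.succAbove_ne i' l), MM, Fin.cases_succ, ha]
    have h1 : T.x (i.succAbove (j.succAbove l)) = T.x i * T.y i j l := by
      unfold FF.y
      field_simp
    have h2 : T.x (i.succAbove (j.succAbove l)) / T.x i = T.y i j l := rfl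
    rw [h2]
    conv_lhs => rw [h1, δ_mul]
    ring
  rw [hdet, Matrix.det_succ_column_zero, Finset.sum_eq_single i']
  · have e1 : P i' 0 = C (T.x i) := by
      simp [hP, MM]
    have e2 : P.submatrix i'.succAbove Fin.succ =
        (C (T.x i) : T.BB) • (Matrix.of fun l r : Fin n => T.δ (c r) (T.y i j l)) := by
      ext1 l r
      rw [Matrix.submatrix_apply, hPs, Matrix.smul_apply, Matrix.of_apply, smul_eq_mul]
    rw [e1, e2, Matrix.det_smul, Fintype.card_fin]
    ring
  · intro p _ hp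
    obtain ⟨l, rfl⟩ := Fin.exists_succAbove_eq hp
    rw [hP0]
    ring
  · intro h0
    exact absurd (Finset.mem_univ _) h0

/-- **DET** from `euler`, `chain` and `fd_ne`. -/
theorem det_y_of (he : ∑ j, T.x j * T.fd j = 0) (hc : ∀ l : Fin n, ∑ j, T.fd j * T.par l (T.x j) = 0)
    (hf : T.fd (Fin.last (n + 1)) ≠ 0) (hd : 2 ≤ d) {k : ℕ} (i : Fin (n + 2)) (j : Fin (n + 1))
    (c : Fin n → Fin k) :
    ∃ ε : ℤˣ, Matrix.det (Matrix.of fun l r : Fin n => T.δ (c r) (T.y i j l)) =
      ((ε : ℤ) : T.BB) * C (T.x i ^ ((d : ℤ) - n - 2) * T.u i (i.succAbove j)) * T.ρ c := by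
  classical
  have hxi : T.x i ≠ 0 := T.x_ne i
  -- the reference chart
  have h0 := MM_minor T c 0 (Fin.last n)
  have hlast : (0 : Fin (n + 2)).succAbove (Fin.last n) = Fin.last (n + 1) := by
    rw [Fin.zero_succAbove, Fin.succ_last]
  have hy0 : ∀ l : Fin n, T.y 0 (Fin.last n) l = T.x l.succ.castSucc := by
    intro l
    unfold FF.y
    rw [T.x_zero, div_one, Fin.zero_succAbove, Fin.succAbove_last, Fin.succ_castSucc]
  have hX : (Matrix.of fun l r : Fin n => T.δ (c r) (T.y 0 (Fin.last n) l)) =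
      Matrix.of fun l r : Fin n => (X ((c r : ℕ), l) : T.BB) := by
    ext1 l r
    simp only [Matrix.of_apply, hy0]
    unfold FF.δ
    rw [Finset.sum_eq_single l]
    · rw [T.par_x, if_pos rfl, C_1, one_mul]
    · intro l' _ hl'
      rw [T.par_x, if_neg hl', C_0, zero_mul]
    · intro h
      exact absurd (Finset.mem_univ _) h
  rw [hX, hlast, T.x_zero, C_1, one_pow, one_mul] at h0
  have h1 := MM_minor T c i j
  have h2 := minor_rel (MM T c) (fun j => C (T.fd j)) (MM_rel T he hc c) (Fin.last (n + 1)) (i.succAbove j)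
  rw [h0, h1] at h2
  set DX := Matrix.det (Matrix.of fun l r : Fin n => (X ((c r : ℕ), l) : T.BB)) with hDX
  set DY := Matrix.det (Matrix.of fun l r : Fin n => T.δ (c r) (T.y i j l)) with hDY
  set b := i.succAbove j with hb
  -- signs
  have hs : ∀ m : ℕ, ((-1 : T.BB) ^ m) * ((-1) ^ m) = 1 := by
    intro m
    rw [← mul_pow]
    simp
  refine ⟨(-1) ^ ((b : ℕ) + ((j.predAbove i : Fin (n + 1)) : ℕ) + ((Fin.last (n + 1) : Fin (n + 2)) : ℕ) +
    (((Fin.last n).predAbove 0 : Fin (n + 1)) : ℕ)), ?_⟩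
  have hx : T.x i ^ ((d : ℤ) - n - 2) * T.u i b = (T.x i ^ (n + 1))⁻¹ * T.fd b := by
    unfold FF.u
    have e1 : T.x i ^ ((d : ℤ) - n - 2) = T.x i ^ (d - 1) * (T.x i ^ (n + 1))⁻¹ := by
      rw [← zpow_natCast, ← zpow_natCast, ← zpow_neg, ← zpow_add₀ hxi]
      congr 1
      push_cast [Nat.cast_sub (by omega : 1 ≤ d)]
      ring
    rw [e1]
    field_simp
  rw [hx]
  unfold FF.ρ
  rw [← hDX]
  have hunit : C (T.fd (Fin.last (n + 1))) * C (T.fd (Fin.last (n + 1)))⁻¹ = (1 : T.BB) := by
    rw [← map_mul, mul_inv_cancel₀ hf, C_1]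
  have hunit2 : C (T.x i) ^ (n + 1) * C (T.x i ^ (n + 1))⁻¹ = (1 : T.BB) := by
    rw [← C_pow, ← map_mul, mul_inv_cancel₀ (pow_ne_zero _ hxi), C_1]
  have h3 : DY = (-1) ^ (b : ℕ) * (-1) ^ ((j.predAbove i : Fin (n + 1)) : ℕ) *
      (C (T.x i ^ (n + 1))⁻¹ * C (T.fd (Fin.last (n + 1)))⁻¹) *
      (C (T.fd (Fin.last (n + 1))) * ((-1) ^ (b : ℕ) * ((-1) ^ ((j.predAbove i : Fin (n + 1)) : ℕ) *
        (C (T.x i) ^ (n + 1) * DY)))) := by
    have e1 : (-1 : T.BB) ^ (b : ℕ) * (-1) ^ ((j.predAbove i : Fin (n + 1)) : ℕ) *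
      (C (T.x i ^ (n + 1))⁻¹ * C (T.fd (Fin.last (n + 1)))⁻¹) *
      (C (T.fd (Fin.last (n + 1))) * ((-1) ^ (b : ℕ) * ((-1) ^ ((j.predAbove i : Fin (n + 1)) : ℕ) *
        (C (T.x i) ^ (n + 1) * DY)))) =
      (((-1 : T.BB) ^ (b : ℕ)) * ((-1) ^ (b : ℕ))) *
      (((-1 : T.BB) ^ ((j.predAbove i : Fin (n + 1)) : ℕ)) * ((-1) ^ ((j.predAbove i : Fin (n + 1)) : ℕ))) *
      (C (T.fd (Fin.last (n + 1))) * C (T.fd (Fin.last (n + 1)))⁻¹) *
      (C (T.x i) ^ (n + 1) * C (T.x i ^ (n + 1))⁻¹) * DY := by ring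
    rw [e1, hs, hs, hunit, hunit2]
    ring
  rw [h3, h2, map_mul]
  push_cast
  ring

end FFDet

end Pool.Agent.H85.UG
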